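import Pool.Agent.T6.H83.RO.Ord

set_option autoImplicit false

/-! Almost all orders of `k` consecutive gaps at every scale up to the record scale. -/

open Finset Filter

namespace Pool.Agent.T6.H83.RO

open Pool.Agent.H256R2.SC (ff)
open Pool.Agent.H312R2.RG.C3 (ff_tendsto ff_small)
open Pool.Agent.H362R2.RQ (ev_bad)
open Pool.Agent.TH779.Ord (fn hh hh_strictMono patterns_many C)
open Pool.Agent.TH816.RR (StRR eta0 Gr eta0_pos)

theorem hh_le {s : ℕ → ℕ} {B kk N K x : ℕ} (hB : 1 ≤ B) (hs : ∀ l, s l ≤ N) (hx : x < K) :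
    hh s B kk x ≤ K * B ^ (N + 1) + 2 ^ K := by
  unfold hh
  have h1 : C s B (x / kk) ≤ (x / kk) * B ^ (N + 1) := by
    unfold C
    refine (sum_le_card_nsmul _ _ (B ^ (N + 1)) ?_).trans (le_of_eq (by rw [card_range, smul_eq_mul]))
    intro l _
    exact Nat.pow_le_pow_right hB (by have := hs l; omega)
  have h2 : x / kk ≤ K := (Nat.div_le_self _ _).trans hx.le
  have h3 : 2 ^ x ≤ 2 ^ K := Nat.pow_le_pow_right (by norm_num) hx.le
  exact Nat.add_le_add (h1.trans (Nat.mul_le_mul_right _ h2)) h3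

theorem orders_many (h : StRR) {k c N : ℕ} {lam : ℝ} (hlam : 1 ≤ lam) (hk : 1 ≤ k)
    (hc : (c : ℝ) ≤ k - 2 * k / lam) (hN : (k : ℝ) + 1 ≤ ((N + 1 : ℕ) : ℝ) * (eta0 / lam)) :
    ∃ c' : ℝ, 0 < c' ∧ ∀ q a : ℕ, Squarefree q → a.Coprime q → ∃ X0 : ℝ, ∀ X : ℝ, X0 ≤ X →
      ∀ H : ℝ, Real.log X ≤ H → H ≤ c' * ff X →
      c.factorial ≤ {π : Equiv.Perm (Fin k) |
        X ^ (7 / 8 : ℝ) ≤ ((OrdSet k q a π c' X H).ncard : ℝ)}.ncard * 2 ^ (k + N) := by
  classical
  obtain ⟨K, kk, hkk, hTK, c1, hc1, hplace⟩ := place h lam hlam (N + 1) (by omega)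
  obtain ⟨B, hBdef⟩ : ∃ B, B = 2 ^ ((N + 1) * kk) + N + 4 := ⟨_, rfl⟩
  have hB4 : 4 ≤ B := by rw [hBdef]; exact Nat.le_add_left _ _
  have hBN : N ≤ B := by rw [hBdef]; exact (Nat.le_add_left N _).trans (Nat.le_add_right _ _)
  have hBp : 2 ^ ((N + 1) * kk) ≤ B := by rw [hBdef, add_assoc]; exact Nat.le_add_right _ _
  have hB1 : 1 ≤ B := le_trans (by norm_num) hB4
  obtain ⟨Dn, hDn⟩ : ∃ Dn, Dn = K * B ^ (N + 1) + 2 ^ K := ⟨_, rfl⟩
  have hDn1 : 1 ≤ Dn := by
    have : 1 ≤ 2 ^ K := Nat.one_le_two_pow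
    omega
  have hD1 : (1 : ℝ) ≤ (Dn : ℝ) := by exact_mod_cast hDn1
  have hD0 : (0 : ℝ) < (Dn : ℝ) := by linarith
  obtain ⟨c', hc'def⟩ : ∃ c' : ℝ, c' = min c1 (1 / (16 * Dn)) := ⟨_, rfl⟩
  have hc'pos : 0 < c' := by rw [hc'def]; exact lt_min hc1 (by positivity)
  refine ⟨c', hc'pos, ?_⟩
  intro q a hq ha
  obtain ⟨s, hs⟩ : ∃ s : Equiv.Perm (Fin N) → ℕ → ℕ, s = fun σ l => if h : l < N then (σ ⟨l, h⟩ : ℕ) else 0 :=
    ⟨_, rfl⟩
  have hs1 : ∀ σ (l : ℕ) (h : l < N), s σ l = (σ ⟨l, h⟩ : ℕ) := by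
    intro σ l h
    rw [hs]
    simp only [h, dite_true]
  have hs2 : ∀ σ l, s σ l ≤ N := by
    intro σ l
    rw [hs]
    by_cases h : l < N
    · simp only [h, dite_true]
      exact (σ ⟨l, h⟩).2.le
    · simp only [h, dite_false]
      exact Nat.zero_le _
  have hall := Filter.eventually_all.2 (fun σ : Equiv.Perm (Fin N) => eventually_atTop.2
    (hplace (fun j => ((hh (s σ) B kk j : ℕ) : ℝ)) Dn (1 / 8) hD1 (by norm_num) (by norm_num)
      (fun j => by
        rw [abs_of_nonneg (Nat.cast_nonneg _)]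
        have := hh_le (kk := kk) hB1 (hs2 σ) j.2
        rw [← hDn] at this
        exact_mod_cast this)
      (fun j j' hjj => by
        have := hh_strictMono (s σ) B kk (show (j : ℕ) < j' from hjj)
        exact_mod_cast this)
      q hq (fun _ => a) (fun _ => ha)))
  obtain ⟨M, hM⟩ : ∃ M : ℝ, M = Fintype.card (Equiv.Perm (Fin k)) + 1 := ⟨_, rfl⟩
  have hM1 : 1 ≤ M := by
    rw [hM]
    have : (0 : ℝ) ≤ Fintype.card (Equiv.Perm (Fin k)) := Nat.cast_nonneg _
    linarith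
  have hev : ∀ᶠ X : ℝ in atTop, ∀ H : ℝ, Real.log X ≤ H → H ≤ c' * ff X →
      c.factorial ≤ {π : Equiv.Perm (Fin k) |
        X ^ (7 / 8 : ℝ) ≤ ((OrdSet k q a π c' X H).ncard : ℝ)}.ncard * 2 ^ (k + N) := by
    filter_upwards [hall, ev_bad (M * (c' + 1)) (by positivity), ff_small c' hc'pos,
      ff_tendsto.eventually_ge_atTop 1, eventually_ge_atTop (Real.exp 1)] with X hX hbadX hsmall hff1 hXe
    intro H hlH hHc
    have hXpos : 0 < X := (Real.exp_pos 1).trans_le hXe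
    have hlog : 1 ≤ Real.log X := by
      rw [Real.le_log_iff_exp_le hXpos]; exact hXe
    have hH0 : 0 < H := by linarith
    have hHX : H ≤ X := hHc.trans hsmall
    set Ws : Finset (Equiv.Perm (Fin k)) := univ.filter
      (fun π => ((OrdSet k q a π c' X H).ncard : ℝ) < X ^ (7 / 8 : ℝ)) with hWs
    set bad : Finset ℕ := Ws.biUnion (fun π =>
      ((ordSet_finite k q a π c' X H).toFinset).biUnion
        (fun n => Icc (Nat.nth Nat.Prime n - ⌊H⌋₊) (Nat.nth Nat.Prime n))) with hbaddef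
    have hbadcard : (bad.card : ℝ) ≤ X ^ (9 / 10 : ℝ) := by
      have hone : ∀ π ∈ Ws, ((((ordSet_finite k q a π c' X H).toFinset).biUnion
        (fun n => Icc (Nat.nth Nat.Prime n - ⌊H⌋₊) (Nat.nth Nat.Prime n))).card : ℝ) ≤
          X ^ (7 / 8 : ℝ) * (c' * ff X + 1) := by
        intro π hw
        rw [hWs, mem_filter] at hw
        have h1 : (((ordSet_finite k q a π c' X H).toFinset).biUnion
          (fun n => Icc (Nat.nth Nat.Prime n - ⌊H⌋₊) (Nat.nth Nat.Prime n))).card ≤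
            (ordSet_finite k q a π c' X H).toFinset.card * (⌊H⌋₊ + 1) := by
          refine card_biUnion_le.trans ?_
          refine (sum_le_card_nsmul _ _ (⌊H⌋₊ + 1) ?_).trans (le_of_eq (by rw [smul_eq_mul]))
          intro n _
          rw [Nat.card_Icc]
          omega
        have h2 := hw.2
        rw [Set.ncard_eq_toFinset_card _ (ordSet_finite k q a π c' X H)] at h2
        have h3 : ((⌊H⌋₊ + 1 : ℕ) : ℝ) ≤ c' * ff X + 1 := by
          push_cast
          have := Nat.floor_le hH0.le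
          linarith
        calc _ ≤ (((ordSet_finite k q a π c' X H).toFinset.card * (⌊H⌋₊ + 1) : ℕ) : ℝ) := by
              exact_mod_cast h1
          _ = ((ordSet_finite k q a π c' X H).toFinset.card : ℝ) * ((⌊H⌋₊ + 1 : ℕ) : ℝ) := by
              push_cast; ring
          _ ≤ _ := mul_le_mul h2.le h3 (Nat.cast_nonneg _) (Real.rpow_nonneg (by linarith) _)
      have h1 : (bad.card : ℝ) ≤ Ws.card * (X ^ (7 / 8 : ℝ) * (c' * ff X + 1)) := by
        have h2 : (bad.card : ℝ) ≤ ∑ π ∈ Ws, ((((ordSet_finite k q a π c' X H).toFinset).biUnion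
            (fun n => Icc (Nat.nth Nat.Prime n - ⌊H⌋₊) (Nat.nth Nat.Prime n))).card : ℝ) := by
          exact_mod_cast card_biUnion_le
        refine h2.trans ((sum_le_sum hone).trans (le_of_eq ?_))
        rw [sum_const, nsmul_eq_mul]
      have h2 : (Ws.card : ℝ) ≤ M := by
        have h3 := card_le_univ Ws
        have h4 : (Ws.card : ℝ) ≤ Fintype.card (Equiv.Perm (Fin k)) := by exact_mod_cast h3
        rw [hM]; linarith
      have hXnn : 0 ≤ X ^ (7 / 8 : ℝ) := Real.rpow_nonneg (by linarith) _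
      have h3 : 0 ≤ c' * ff X + 1 := by
        have := mul_nonneg hc'pos.le (show (0 : ℝ) ≤ ff X by linarith)
        linarith
      calc (bad.card : ℝ) ≤ Ws.card * (X ^ (7 / 8 : ℝ) * (c' * ff X + 1)) := h1
        _ ≤ M * (X ^ (7 / 8 : ℝ) * (c' * ff X + 1)) := mul_le_mul_of_nonneg_right h2 (mul_nonneg hXnn h3)
        _ = X ^ (7 / 8 : ℝ) * (M * (c' * ff X + 1)) := by ring
        _ ≤ X ^ (7 / 8 : ℝ) * (M * (c' + 1) * ff X + 1) := by
            apply mul_le_mul_of_nonneg_left _ hXnn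
            have h4 : M * 1 ≤ M * ff X := mul_le_mul_of_nonneg_left hff1 (by linarith)
            have e1 : M * (c' * ff X + 1) = M * c' * ff X + M := by ring
            have e2 : M * (c' + 1) * ff X + 1 = M * c' * ff X + M * ff X + 1 := by ring
            rw [e1, e2]
            linarith
        _ ≤ X ^ (9 / 10 : ℝ) := hbadX
    have hHc1 : H ≤ c1 * ff X := by
      refine hHc.trans (mul_le_mul_of_nonneg_right ?_ (by linarith))
      rw [hc'def]; exact min_le_left _ _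
    have hs0 : 0 < H / (8 * Dn) := by positivity
    have hc's : c' * H ≤ H / (8 * Dn) / 2 := by
      have h1 : c' ≤ 1 / (16 * Dn) := by rw [hc'def]; exact min_le_right _ _
      have h2 : c' * H ≤ 1 / (16 * Dn) * H := mul_le_mul_of_nonneg_right h1 hH0.le
      refine h2.trans (le_of_eq ?_)
      field_simp
      norm_num
    have hcD : c' * ((Dn : ℝ) + 1) ≤ 1 / 2 := by
      have h1 : c' ≤ 1 / (16 * Dn) := by rw [hc'def]; exact min_le_right _ _
      have h2 : c' * ((Dn : ℝ) + 1) ≤ 1 / (16 * Dn) * (Dn + 1) :=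
        mul_le_mul_of_nonneg_right h1 (by linarith)
      refine h2.trans ?_
      rw [div_mul_eq_mul_div, div_le_iff₀ (by positivity)]
      linarith
    have hset : {π : Equiv.Perm (Fin k) | X ^ (7 / 8 : ℝ) ≤ ((OrdSet k q a π c' X H).ncard : ℝ)} =
        ((univ.filter (fun π : Equiv.Perm (Fin k) =>
          X ^ (7 / 8 : ℝ) ≤ ((OrdSet k q a π c' X H).ncard : ℝ)) : Finset _) :
            Set (Equiv.Perm (Fin k))) := by
      ext π
      simp
    rw [hset, Set.ncard_coe_finset]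
    apply patterns_many
    intro σ
    obtain ⟨n, t, hn1, hn2, hnb, ht, htF, hcl, hsum, hex⟩ := hX σ H hlH hHc1 bad hbadcard
    have hDb : ∀ v < K, ((hh (s σ) B kk v : ℕ) : ℝ) ≤ (Dn : ℝ) := by
      intro v hv
      have := hh_le (kk := kk) hB1 (hs2 σ) hv
      rw [← hDn] at this
      exact_mod_cast this
    obtain ⟨π, x, y, hx, hy, hxy, m, hm, hnm, hmn⟩ := window hkk hTK hlam hk hc σ (s σ) (hs1 σ) B
      hBp hB4 hBN q a X H (H / (8 * Dn)) hs0 hHX n t hn1 hn2 ht htF hcl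
      (hN.trans hsum) hex c' Dn hc's hc'pos.le hDb hcD
    refine ⟨π, ?_, x, y, hx, hy, hxy⟩
    rw [mem_filter]
    refine ⟨mem_univ _, ?_⟩
    by_contra hcon
    apply hnb
    rw [hbaddef, mem_biUnion]
    refine ⟨π, ?_, ?_⟩
    · rw [hWs, mem_filter]
      exact ⟨mem_univ _, not_le.1 hcon⟩
    · rw [mem_biUnion]
      refine ⟨m, (Set.Finite.mem_toFinset _).2 hm, ?_⟩
      rw [mem_Icc]
      refine ⟨?_, hnm⟩
      have h1 : ((Nat.nth Nat.Prime m - n : ℕ) : ℝ) ≤ H := by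
        rw [Nat.cast_sub hnm]
        linarith
      have h2 := Nat.le_floor h1
      omega
  exact Filter.eventually_atTop.1 hev

theorem fact_le {c k : ℕ} (h : c ≤ k) : k.factorial ≤ c.factorial * k ^ (k - c) := by
  obtain ⟨d, rfl⟩ := Nat.exists_eq_add_of_le h
  rw [Nat.add_sub_cancel_left, ← Nat.factorial_mul_ascFactorial]
  exact Nat.mul_le_mul_left _ (Nat.ascFactorial_le_pow_add c d)

/-- the numerical part -/
theorem numer (η : ℝ) (hη : 0 < η) {k : ℕ} (hk : 1 ≤ k) :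
    ∃ (lam : ℝ) (c N : ℕ), 1 ≤ lam ∧ (c : ℝ) ≤ k - 2 * k / lam ∧
      (k : ℝ) + 1 ≤ ((N + 1 : ℕ) : ℝ) * (η / lam) ∧
      ∀ P : ℕ, c.factorial ≤ P * 2 ^ (k + N) →
        (k.factorial : ℝ) * Real.exp (-((6 + 7 / η) * k * Real.sqrt (Real.log k))) ≤ P := by
  have hk1 : (1 : ℝ) ≤ k := by exact_mod_cast hk
  obtain ⟨L, hL⟩ : ∃ L, L = Real.log k := ⟨_, rfl⟩
  have hL0 : 0 ≤ L := by rw [hL]; exact Real.log_nonneg hk1
  obtain ⟨s, hs⟩ : ∃ s, s = Real.sqrt L := ⟨_, rfl⟩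
  have hs0 : 0 ≤ s := by rw [hs]; exact Real.sqrt_nonneg _
  have hsL : s * s = L := by rw [hs]; exact Real.mul_self_sqrt hL0
  have hlam0 : (0 : ℝ) < 2 + s := by linarith
  have h0 : 0 ≤ (k : ℝ) - 2 * k / (2 + s) := by
    have : 2 * k / (2 + s) ≤ (k : ℝ) := by
      rw [div_le_iff₀ hlam0]
      nlinarith
    linarith
  obtain ⟨c, hcd⟩ : ∃ c, c = ⌊(k : ℝ) - 2 * k / (2 + s)⌋₊ := ⟨_, rfl⟩
  obtain ⟨N, hNd⟩ : ∃ N, N = ⌈(2 + s) * ((k : ℝ) + 1) / η⌉₊ := ⟨_, rfl⟩
  have hc : (c : ℝ) ≤ k - 2 * k / (2 + s) := by rw [hcd]; exact Nat.floor_le h0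
  have hc2 : (k : ℝ) - 2 * k / (2 + s) < c + 1 := by rw [hcd]; exact Nat.lt_floor_add_one _
  have hN1 : (2 + s) * ((k : ℝ) + 1) / η ≤ N := by rw [hNd]; exact Nat.le_ceil _
  have hN2 : (N : ℝ) < (2 + s) * ((k : ℝ) + 1) / η + 1 := by
    rw [hNd]; exact Nat.ceil_lt_add_one (by positivity)
  have hck : c ≤ k := by
    have h1 : 0 ≤ 2 * (k : ℝ) / (2 + s) := by positivity
    have : (c : ℝ) ≤ k := by linarith
    exact_mod_cast this
  refine ⟨2 + s, c, N, by linarith, hc, ?_, ?_⟩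
  · rw [div_le_iff₀ hη] at hN1
    rw [mul_div_assoc', le_div_iff₀ hlam0]
    push_cast
    nlinarith
  intro P hP
  have hP1 : 1 ≤ P := by
    by_contra hcon
    have h1 : P = 0 := by omega
    rw [h1, zero_mul] at hP
    exact absurd (Nat.factorial_pos c) (by omega)
  have hP' : (0 : ℝ) < P := by exact_mod_cast hP1
  rw [← hL, ← hs]
  rcases Nat.lt_or_ge k 2 with h2 | h2
  · have h3 : k = 1 := by omega
    have h4 : L = 0 := by rw [hL, h3, Nat.cast_one, Real.log_one]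
    have h5 : s = 0 := by rw [hs, h4, Real.sqrt_zero]
    rw [h5, mul_zero, neg_zero, Real.exp_zero, mul_one, h3, Nat.factorial_one]
    exact_mod_cast hP1
  have hk2 : (2 : ℝ) ≤ k := by exact_mod_cast h2
  have hlog2 : Real.log 2 ≤ 1 := by
    have := Real.log_two_lt_d9
    linarith
  have hlog2' : 0.69 < Real.log 2 := by
    have := Real.log_two_gt_d9
    linarith
  have hlog20 : 0 ≤ Real.log 2 := by linarith
  have hL2 : 0.69 < L := by rw [hL]; exact hlog2'.trans_le (Real.log_le_log (by norm_num) hk2)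
  have hs1 : 0.83 ≤ s := by
    rw [hs]
    apply Real.le_sqrt_of_sq_le
    norm_num
    linarith
  have hsk : s ≤ k := by
    rw [hs, Real.sqrt_le_left (by linarith), hL]
    have := Real.log_le_sub_one_of_pos (show (0 : ℝ) < k by linarith)
    nlinarith
  have hks : 0 ≤ (k : ℝ) * s := by positivity
  have h1 : Real.log c.factorial ≤ Real.log P + (k + N) * Real.log 2 := by
    have h2 : (c.factorial : ℝ) ≤ P * 2 ^ (k + N) := by exact_mod_cast hP
    have h3 := Real.log_le_log (by exact_mod_cast Nat.factorial_pos c) h2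
    rw [Real.log_mul hP'.ne' (by positivity), Real.log_pow] at h3
    push_cast at h3
    exact h3
  have h3 : Real.log k.factorial ≤ Real.log c.factorial + (k - c) * L := by
    have h3 : (k.factorial : ℝ) ≤ c.factorial * (k : ℝ) ^ (k - c) := by exact_mod_cast fact_le hck
    have h4 := Real.log_le_log (by exact_mod_cast Nat.factorial_pos k) h3
    have hcf : (0 : ℝ) < c.factorial := by exact_mod_cast Nat.factorial_pos c
    rw [Real.log_mul hcf.ne' (by positivity), Real.log_pow, Nat.cast_sub hck] at h4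
    rw [hL]
    exact h4
  have h4 : ((k : ℝ) - c) * L ≤ (2 * k / (2 + s) + 1) * L :=
    mul_le_mul_of_nonneg_right (by linarith) hL0
  have e1 : 2 * k / (2 + s) * L ≤ 2 * (k * s) := by
    rw [div_mul_eq_mul_div, div_le_iff₀ hlam0, ← hsL]
    nlinarith
  have e2 : L ≤ k * s := by
    rw [← hsL]
    exact mul_le_mul_of_nonneg_right hsk hs0
  have e3 : ((k : ℝ) + N) * Real.log 2 ≤ 3 * (k * s) + 7 / η * (k * s) := by
    have g1 : (k : ℝ) * 0.83 ≤ k * s := mul_le_mul_of_nonneg_left hs1 (by linarith)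
    have g2 : (2 + s) * ((k : ℝ) + 1) ≤ 7 * (k * s) := by nlinarith
    have g3 : (2 + s) * ((k : ℝ) + 1) / η ≤ 7 / η * (k * s) := by
      rw [div_mul_eq_mul_div]
      exact div_le_div_of_nonneg_right g2 hη.le
    have g4 : (k : ℝ) + N ≤ 3 * (k * s) + 7 / η * (k * s) := by nlinarith
    have g5 : 0 ≤ (k : ℝ) + N := by positivity
    calc ((k : ℝ) + N) * Real.log 2 ≤ ((k : ℝ) + N) * 1 := mul_le_mul_of_nonneg_left hlog2 g5
      _ ≤ _ := by rw [mul_one]; exact g4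
  have e5 : Real.log k.factorial ≤ Real.log P + (6 + 7 / η) * k * s := by
    have : (2 * k / (2 + s) + 1) * L = 2 * k / (2 + s) * L + L := by ring
    nlinarith
  have hf : (0 : ℝ) < k.factorial := by exact_mod_cast Nat.factorial_pos k
  rw [← Real.log_le_log_iff (by positivity) hP', Real.log_mul hf.ne' (Real.exp_pos _).ne',
    Real.log_exp]
  linarith

theorem orders_main (h : StRR) : ∃ C₁ : ℝ, ∀ k : ℕ, 1 ≤ k → ∃ c : ℝ, 0 < c ∧
    ∀ q a : ℕ, Squarefree q → a.Coprime q → ∃ X₀ : ℝ, ∀ X : ℝ, X₀ ≤ X →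
      ∀ H : ℝ, Real.log X ≤ H → H ≤ c * ff X →
      (k.factorial : ℝ) * Real.exp (-(C₁ * k * Real.sqrt (Real.log k))) ≤
        ({π : Equiv.Perm (Fin k) | X ^ (7 / 8 : ℝ) ≤ ((OrdSet k q a π c X H).ncard : ℝ)}.ncard : ℝ) := by
  refine ⟨6 + 7 / eta0, fun k hk => ?_⟩
  obtain ⟨lam, c, N, hlam, hc, hN, hP⟩ := numer eta0 eta0_pos hk
  obtain ⟨c', hc', h1⟩ := orders_many h hlam hk hc hN
  refine ⟨c', hc', fun q a hq ha => ?_⟩
  obtain ⟨X0, hX0⟩ := h1 q a hq ha
  exact ⟨X0, fun X hX H hH1 hH2 => hP _ (hX0 X hX H hH1 hH2)⟩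

end Pool.Agent.T6.H83.RO
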