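import Pool.Agent.T6.H83.RO.Place
import Pool.Agent.H362R2.RQ.Shapes
import Pool.Agent.TH779.Ord.Block
import Pool.Agent.TH779.Ord.Count

set_option autoImplicit false

/-! Orders of `k` consecutive gaps at every scale up to the record scale. -/

open Finset Filter

namespace Pool.Agent.T6.H83.RO

open Pool.Agent.H256R2.SC (ff)
open Pool.Agent.H312R2.RG.C3 (ff_tendsto ff_small)
open Pool.Agent.H362R2.RQ (ev_bad)
open Pool.Agent.TH779.Ord (fn el el_mem el_lt el_surj gp hh hh_strictMono block patterns_many C)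
open Pool.Agent.TH816.RR (StRR eta0 Gr)

/-- a block of hits is a block of consecutive primes -/
theorem nth_block (n k : ℕ) (r : ℕ → ℕ) (hr : ∀ i j, i < j → j ≤ k → r i < r j)
    (hp : ∀ i ≤ k, (n + r i).Prime)
    (hno : ∀ y, r 0 ≤ y → y ≤ r k → (n + y).Prime → ∃ i ≤ k, y = r i) :
    ∃ m : ℕ, ∀ i ≤ k, Nat.nth Nat.Prime (m + i) = n + r i := by
  have hinf : (Set.ofPred Nat.Prime).Infinite := Nat.infinite_setOfPred_prime
  have hle : ∀ i j, i ≤ j → j ≤ k → r i ≤ r j := by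
    intro i j hij hj
    rcases Nat.lt_or_eq_of_le hij with h | h
    · exact (hr i j h hj).le
    · rw [h]
  refine ⟨Nat.count Nat.Prime (n + r 0), fun i => ?_⟩
  induction i with
  | zero =>
    intro _
    rw [add_zero]
    exact Nat.nth_count (hp 0 (Nat.zero_le _))
  | succ i ih =>
    intro hi
    have h1 := ih (by omega)
    set m := Nat.count Nat.Prime (n + r 0) with hm
    have h2 : Nat.nth Nat.Prime (m + i) < Nat.nth Nat.Prime (m + (i + 1)) :=
      Nat.nth_strictMono hinf (by omega)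
    have h3 : Nat.nth Nat.Prime (Nat.count Nat.Prime (n + r (i + 1))) = n + r (i + 1) :=
      Nat.nth_count (hp (i + 1) hi)
    have h4 : m + i < Nat.count Nat.Prime (n + r (i + 1)) := by
      have := hr i (i + 1) (by omega) hi
      rw [← (Nat.nth_strictMono hinf).lt_iff_lt, h3, h1]
      omega
    have h5 : Nat.nth Nat.Prime (m + (i + 1)) ≤ n + r (i + 1) := by
      rw [← h3]
      exact (Nat.nth_strictMono hinf).monotone (by omega)
    have h6 : (Nat.nth Nat.Prime (m + (i + 1))).Prime := Nat.prime_nth_prime _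
    rw [h1] at h2
    obtain ⟨y, hy⟩ : ∃ y, Nat.nth Nat.Prime (m + (i + 1)) = n + y :=
      ⟨Nat.nth Nat.Prime (m + (i + 1)) - n, by omega⟩
    rw [hy] at h2 h5 h6 ⊢
    have h7 : r 0 ≤ r i := hle 0 i (Nat.zero_le _) (by omega)
    have h8 : r (i + 1) ≤ r k := hle (i + 1) k hi le_rfl
    obtain ⟨j, hj, hyj⟩ := hno y (by omega) (by omega) h6
    rcases lt_trichotomy j (i + 1) with h | h | h
    · have := hle j i (by omega) (by omega)
      omega
    · rw [hyj, h]
    · have := hr (i + 1) j h hj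
      omega

/-- the hits as natural numbers -/
def hits (K T kk : ℕ) (P : Fin K → Prop) [DecidablePred P] : Finset ℕ :=
  (univ.filter (fun j : Fin K => (j : ℕ) < T * kk ∧ P j)).map Fin.valEmbedding

theorem mem_hits {K T kk : ℕ} {P : Fin K → Prop} [DecidablePred P] {x : ℕ} :
    x ∈ hits K T kk P ↔ ∃ j : Fin K, (j : ℕ) < T * kk ∧ P j ∧ (j : ℕ) = x := by
  unfold hits
  simp only [Finset.mem_map, mem_filter, mem_univ, true_and, Fin.valEmbedding_apply]
  constructor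
  · rintro ⟨j, ⟨h1, h2⟩, h3⟩
    exact ⟨j, h1, h2, h3⟩
  · rintro ⟨j, h1, h2, h3⟩
    exact ⟨j, ⟨h1, h2⟩, h3⟩

theorem sum_conv (K T kk : ℕ) (lam : ℝ) (P : Fin K → Prop) [DecidablePred P] :
    ∑ g : Fin T, fn lam (((Gr K T kk).filter (fun j : Fin K => (j : ℕ) / kk = g)).filter P).card =
      ∑ g ∈ range T, fn lam ((hits K T kk P).filter (fun x => x / kk = g)).card := by
  rw [← Fin.sum_univ_eq_sum_range (fun g => fn lam ((hits K T kk P).filter (fun x => x / kk = g)).card) T]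
  refine sum_congr rfl fun g _ => ?_
  congr 1
  apply card_bij (fun (j : Fin K) _ => (j : ℕ))
  · intro j hj
    unfold Gr at hj
    simp only [mem_filter, mem_univ, true_and] at hj
    rw [mem_filter, mem_hits]
    exact ⟨⟨j, hj.1.1, hj.2, rfl⟩, hj.1.2⟩
  · intro i _ j _ hij
    exact Fin.ext hij
  · intro x hx
    rw [mem_filter, mem_hits] at hx
    obtain ⟨⟨j, h1, h2, h3⟩, h4⟩ := hx
    refine ⟨j, ?_, h3⟩
    unfold Gr
    simp only [mem_filter, mem_univ, true_and]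
    rw [h3]
    rw [h3] at h1
    exact ⟨⟨h1, h4⟩, h2⟩

/-- the first indices `n` of the strings of `k + 1` consecutive primes in `(X, 4X]`, all in the class `a` modulo
`q`, with all gaps at least `c H`, with diameter at most `H`, and the gaps ordered like `π`, different gaps by
a factor `1 + c` at least -/
def OrdSet (k q a : ℕ) (π : Equiv.Perm (Fin k)) (c X H : ℝ) : Set ℕ :=
  {n : ℕ | X < Nat.nth Nat.Prime n ∧ (Nat.nth Nat.Prime (n + k) : ℝ) ≤ 4 * X ∧
    (∀ i ≤ k, Nat.nth Nat.Prime (n + i) ≡ a [MOD q]) ∧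
    (Nat.nth Nat.Prime (n + k) : ℝ) - Nat.nth Nat.Prime n ≤ H ∧
    (∀ i < k, c * H ≤ (Nat.nth Nat.Prime (n + i + 1) : ℝ) - Nat.nth Nat.Prime (n + i)) ∧
    ∀ i j : Fin k, π i < π j →
      (1 + c) * ((Nat.nth Nat.Prime (n + i + 1) : ℝ) - Nat.nth Nat.Prime (n + i)) ≤
        (Nat.nth Nat.Prime (n + j + 1) : ℝ) - Nat.nth Nat.Prime (n + j)}

theorem ordSet_finite (k q a : ℕ) (π : Equiv.Perm (Fin k)) (c X H : ℝ) : (OrdSet k q a π c X H).Finite := by
  refine (Set.finite_Iic ⌊4 * X⌋₊).subset ?_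
  rintro n ⟨-, h2, -⟩
  rw [Set.mem_Iic]
  refine Nat.le_floor (le_trans ?_ h2)
  have h3 : n + k ≤ Nat.nth Nat.Prime (n + k) :=
    (Nat.nth_strictMono Nat.infinite_setOfPred_prime).le_apply
  have h4 : n ≤ n + k := by omega
  exact_mod_cast h4.trans h3

/-- the deterministic part: from a window to a string of consecutive primes -/
theorem window {K kk N k c : ℕ} {lam : ℝ} (hkk : 1 ≤ kk) (hTK : (N + 1) * kk ≤ K) (hlam : 1 ≤ lam)
    (hk : 1 ≤ k) (hc : (c : ℝ) ≤ k - 2 * k / lam) (σ : Equiv.Perm (Fin N)) (s : ℕ → ℕ)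
    (hs : ∀ (l : ℕ) (h : l < N), s l = (σ ⟨l, h⟩ : ℕ)) (B : ℕ) (hB : 2 ^ ((N + 1) * kk) ≤ B)
    (hB4 : 4 ≤ B) (hBN : N ≤ B) (q a : ℕ) (X F s0 : ℝ) (hs0 : 0 < s0) (hFX : F ≤ X) (n : ℕ)
    (t : Fin K → ℕ) (hn1 : X < n) (hn2 : (n : ℝ) ≤ 3 * X)
    (ht : ∀ j : Fin K, F / 2 + s0 * (hh s B kk j : ℝ) < t j ∧
      (t j : ℝ) ≤ F / 2 + s0 * (hh s B kk j : ℝ) + s0 * (1 / 8))
    (htF : ∀ j, (t j : ℝ) ≤ F) (hcl : ∀ j, n + t j ≡ a [MOD q])
    (hsum : (k : ℝ) + 1 ≤ ∑ g : Fin (N + 1), fn lam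
      (((Gr K (N + 1) kk).filter (fun j : Fin K => (j : ℕ) / kk = g)).filter
        (fun j => (n + t j).Prime)).card)
    (hex : ∀ y : ℕ, (y : ℝ) ≤ F → (n + y).Prime → ∃ j, y = t j) (c' Dn : ℝ) (hc' : c' * F ≤ s0 / 2)
    (hc'0 : 0 ≤ c') (hDn : ∀ v < K, (hh s B kk v : ℝ) ≤ Dn) (hcD : c' * (Dn + 1) ≤ 1 / 2) :
    ∃ (π : Equiv.Perm (Fin k)) (x : Fin c → Fin k) (y : Fin c → Fin N), StrictMono x ∧ StrictMono y ∧
      (∀ i j, σ (y i) < σ (y j) ↔ π (x i) < π (x j)) ∧
      ∃ m ∈ OrdSet k q a π c' X F, n ≤ Nat.nth Nat.Prime m ∧ (Nat.nth Nat.Prime m : ℝ) ≤ n + F := by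
  classical
  have hmono : StrictMono (hh s B kk) := hh_strictMono s B kk
  obtain ⟨J, hJ⟩ : ∃ J, J = hits K (N + 1) kk (fun j => (n + t j).Prime) := ⟨_, rfl⟩
  rw [sum_conv, ← hJ] at hsum
  have hJlt : ∀ x ∈ J, x < (N + 1) * kk := by
    intro x hx
    rw [hJ, mem_hits] at hx
    obtain ⟨j, h1, -, h3⟩ := hx
    omega
  obtain ⟨e₀, he₀, π, hπ, x, y, hx, hy, hxy⟩ := block hkk rfl hlam hk hc J hJlt hsum σ s hs B hB hB4 hBN
  refine ⟨π, x, y, hx, hy, hxy, ?_⟩
  -- the positions as a function on `ℕ`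
  obtain ⟨tt, htt⟩ : ∃ tt : ℕ → ℕ, ∀ (v : ℕ) (h : v < K), tt v = t ⟨v, h⟩ :=
    ⟨fun v => if h : v < K then t ⟨v, h⟩ else 0, fun v h => by simp only [dif_pos h]⟩
  have htt' : ∀ v, v < K → F / 2 + s0 * (hh s B kk v : ℝ) < tt v ∧
      (tt v : ℝ) ≤ F / 2 + s0 * (hh s B kk v : ℝ) + s0 * (1 / 8) := by
    intro v hv
    rw [htt v hv]
    exact ht ⟨v, hv⟩
  have hstep : ∀ v w, v < w → ((hh s B kk v : ℕ) : ℝ) + 1 ≤ (hh s B kk w : ℕ) := by
    intro v w hvw
    have := hmono hvw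
    exact_mod_cast this
  have httmono : ∀ v w, v < w → w < K → tt v < tt w := by
    intro v w hvw hw
    have h1 := (htt' v (by omega)).2
    have h2 := (htt' w hw).1
    have h3 := mul_le_mul_of_nonneg_left (hstep v w hvw) hs0.le
    have h4 : (tt v : ℝ) < tt w := by linarith
    exact_mod_cast h4
  have hJK : ∀ e < J.card, el J e < K := fun e he => lt_of_lt_of_le (hJlt _ (el_mem J he)) hTK
  have hJp : ∀ e < J.card, (n + tt (el J e)).Prime := by
    intro e he
    have h1 := el_mem J he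
    rw [hJ, mem_hits] at h1
    obtain ⟨j, -, h2, h3⟩ := h1
    rw [← hJ] at h3
    rw [← h3, htt _ j.2]
    exact h2
  have httF : ∀ v, v < K → (tt v : ℝ) ≤ F := by
    intro v hv
    rw [htt v hv]
    exact htF _
  obtain ⟨r, hr⟩ : ∃ r : ℕ → ℕ, r = fun i => tt (el J (e₀ + i)) := ⟨_, rfl⟩
  have hri : ∀ i, r i = tt (el J (e₀ + i)) := fun i => by rw [hr]
  have hrlt : ∀ i j, i < j → j ≤ k → r i < r j := by
    intro i j hij hj
    rw [hri, hri]
    exact httmono _ _ (el_lt J (by omega) (by omega)) (hJK _ (by omega))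
  obtain ⟨m, hm⟩ := nth_block n k r hrlt
    (fun i hi => by rw [hri]; exact hJp _ (by omega))
    (by
      intro z hz1 hz2 hz3
      have hzF : (z : ℝ) ≤ F := by
        have h1 : (z : ℝ) ≤ r k := by exact_mod_cast hz2
        have h2 : (r k : ℝ) ≤ F := by rw [hri]; exact httF _ (hJK _ he₀)
        exact h1.trans h2
      obtain ⟨j, hj⟩ := hex z hzF hz3
      have hj' : z = tt j := by rw [hj, htt _ j.2]
      have hjle : (j : ℕ) ≤ el J (e₀ + k) := by
        by_contra hcon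
        have := httmono _ _ (not_le.1 hcon) j.2
        rw [hri] at hz2
        omega
      have hjJ : (j : ℕ) ∈ J := by
        rw [hJ, mem_hits]
        refine ⟨j, ?_, ?_, rfl⟩
        · have := hJlt _ (el_mem J he₀)
          omega
        · rw [← hj]; exact hz3
      obtain ⟨e, he, hej⟩ := el_surj J hjJ
      have h1 : e₀ ≤ e := by
        by_contra hcon
        have h2 := httmono _ _ (el_lt J (not_le.1 hcon) (by omega)) (hJK _ (by omega))
        rw [hri, add_zero] at hz1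
        rw [hej] at h2
        omega
      have h2 : e ≤ e₀ + k := by
        by_contra hcon
        have h3 := el_lt J (not_le.1 hcon) he
        omega
      refine ⟨e - e₀, by omega, ?_⟩
      rw [hri, Nat.add_sub_cancel' h1, hej]
      exact hj')
  have hm0 : Nat.nth Nat.Prime m = n + r 0 := by
    have := hm 0 (Nat.zero_le _)
    rwa [add_zero] at this
  have hrF : ∀ i ≤ k, (r i : ℝ) ≤ F := fun i hi => by rw [hri]; exact httF _ (hJK _ (by omega))
  -- the gaps
  have hgap : ∀ i < k, (Nat.nth Nat.Prime (m + i + 1) : ℝ) - Nat.nth Nat.Prime (m + i) =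
      (r (i + 1) : ℝ) - r i := by
    intro i hi
    have h1 := hm i hi.le
    have h2 := hm (i + 1) hi
    rw [← add_assoc] at h2
    rw [h1, h2]
    push_cast
    ring
  have hgp : ∀ i < k, s0 * ((gp s B kk J (e₀ + i) : ℕ) : ℝ) - s0 * (1 / 8) ≤ (r (i + 1) : ℝ) - r i ∧
      (r (i + 1) : ℝ) - r i ≤ s0 * ((gp s B kk J (e₀ + i) : ℕ) : ℝ) + s0 * (1 / 8) := by
    intro i hi
    have h1 := htt' _ (hJK (e₀ + i) (by omega))
    have h2 := htt' _ (hJK (e₀ + (i + 1)) (by omega))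
    have h3 : hh s B kk (el J (e₀ + i)) < hh s B kk (el J (e₀ + i + 1)) :=
      hmono (el_lt J (by omega) (by omega))
    have h4 : ((gp s B kk J (e₀ + i) : ℕ) : ℝ) =
        (hh s B kk (el J (e₀ + i + 1)) : ℝ) - hh s B kk (el J (e₀ + i)) := by
      unfold gp
      rw [Nat.cast_sub h3.le]
    rw [hri, hri, h4, mul_sub]
    rw [← add_assoc] at h2
    rw [← add_assoc]
    constructor <;> linarith
  have hgp1 : ∀ i < k, (1 : ℝ) ≤ ((gp s B kk J (e₀ + i) : ℕ) : ℝ) := by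
    intro i hi
    have h3 : hh s B kk (el J (e₀ + i)) < hh s B kk (el J (e₀ + i + 1)) :=
      hmono (el_lt J (by omega) (by omega))
    have h4 : 1 ≤ gp s B kk J (e₀ + i) := by
      unfold gp
      omega
    exact_mod_cast h4
  refine ⟨m, ⟨?_, ?_, ?_, ?_, ?_, ?_⟩, ?_, ?_⟩
  · rw [hm0]
    push_cast
    have : (0 : ℝ) ≤ r 0 := Nat.cast_nonneg _
    linarith
  · rw [hm k le_rfl]
    push_cast
    have := hrF k le_rfl
    linarith
  · intro i hi
    rw [hm i hi, hri, htt _ (hJK _ (by omega))]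
    exact hcl _
  · rw [hm k le_rfl, hm0]
    push_cast
    have h1 := hrF k le_rfl
    have h2 : (0 : ℝ) ≤ r 0 := Nat.cast_nonneg _
    linarith
  · intro i hi
    rw [hgap i hi]
    have h1 := (hgp i hi).1
    have h2 := mul_le_mul_of_nonneg_left (hgp1 i hi) hs0.le
    linarith
  · intro i j hij
    have hij' := (hπ i j).1 hij
    rw [hgap i i.2, hgap j j.2]
    have h1 := (hgp i i.2).2
    have h2 := (hgp j j.2).1
    have h3 : ((gp s B kk J (e₀ + i) : ℕ) : ℝ) + 1 ≤ ((gp s B kk J (e₀ + j) : ℕ) : ℝ) := by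
      exact_mod_cast hij'
    have h4 := mul_le_mul_of_nonneg_left h3 hs0.le
    have h5 : ((gp s B kk J (e₀ + i) : ℕ) : ℝ) ≤ Dn := by
      refine le_trans ?_ (hDn (el J (e₀ + i + 1)) (hJK _ (by have := i.2; omega)))
      exact_mod_cast (Nat.sub_le _ _)
    have h6 : c' * ((r (i + 1) : ℝ) - r i) ≤ s0 * (1 / 2) := by
      have e1 : (r (i + 1) : ℝ) - r i ≤ s0 * (Dn + 1) := by
        have := mul_le_mul_of_nonneg_left h5 hs0.le
        linarith
      have e2 := mul_le_mul_of_nonneg_left e1 hc'0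
      have e3 := mul_le_mul_of_nonneg_left hcD hs0.le
      have e4 : c' * (s0 * (Dn + 1)) = s0 * (c' * (Dn + 1)) := by ring
      linarith
    rw [one_add_mul]
    linarith
  · rw [hm0]
    omega
  · rw [hm0]
    push_cast
    have := hrF 0 (Nat.zero_le _)
    linarith

end Pool.Agent.T6.H83.RO
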