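import Pool.Agent.TH816.RR.Place

set_option autoImplicit false

/-! Placing the forms of a record window at prescribed relative positions and in prescribed residue
classes, at every scale (adapted from `Pool.Agent.TH816.RR.Place` and `Pool.Agent.H362R2.RQ.Place`). -/

open Finset Filter

namespace Pool.Agent.T6.H83.RO

open Pool.Agent.H378R2 (yy)
open Pool.Agent.H256R2.SC (ff)
open Pool.Agent.H362R2.RQ (exists_prime_mod dvd_of_primes)
open Pool.Agent.TH779.Ord (fn)
open Pool.Agent.TH816.RR (StRR eta0 Gr)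

/-- windows of length `F`, `log X ≤ F ≤ c ff X`, in which the forms have the relative positions `u j`, up to
the error `ε`, in the unit `F / (8 D)`, and prescribed residues modulo the squarefree `q` -/
theorem place (h : StRR) (lam : ℝ) (hlam : 1 ≤ lam) (T : ℕ) (hT : 1 ≤ T) :
    ∃ K k : ℕ, 1 ≤ k ∧ T * k ≤ K ∧ ∃ c : ℝ, 0 < c ∧
    ∀ (u : Fin K → ℝ) (D ε : ℝ), 1 ≤ D → 0 < ε → ε ≤ 1 / 2 → (∀ j, |u j| ≤ D) →
    (∀ j j', j < j' → u j + 1 ≤ u j') → ∀ q : ℕ, Squarefree q →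
    ∀ a : Fin K → ℕ, (∀ j, (a j).Coprime q) →
    ∃ X0 : ℝ, ∀ X : ℝ, X0 ≤ X → ∀ F : ℝ, Real.log X ≤ F → F ≤ c * ff X →
    ∀ bad : Finset ℕ, (bad.card : ℝ) ≤ X ^ (9 / 10 : ℝ) →
    ∃ (n : ℕ) (t : Fin K → ℕ), X < n ∧ (n : ℝ) ≤ 3 * X ∧ n ∉ bad ∧
      (∀ j, F / 2 + F / (8 * D) * u j < t j ∧
        (t j : ℝ) ≤ F / 2 + F / (8 * D) * u j + F / (8 * D) * ε) ∧
      (∀ j, (t j : ℝ) ≤ F) ∧
      (∀ j, n + t j ≡ a j [MOD q]) ∧
      (T : ℝ) * (eta0 / lam) ≤ ∑ g : Fin T, fn lam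
        (((Gr K T k).filter (fun j : Fin K => (j : ℕ) / k = g)).filter (fun j => (n + t j).Prime)).card ∧
      ∀ s : ℕ, (s : ℝ) ≤ F → (n + s).Prime → ∃ j, s = t j := by
  obtain ⟨K, k, hk, hTk, c, hc, hX1'⟩ := h lam hlam T hT
  refine ⟨K, k, hk, hTk, c, hc, ?_⟩
  intro u D ε hD hε hε2 huD husep q hqsf a haq
  have hq0 : 0 < q := Nat.pos_of_ne_zero hqsf.ne_zero
  obtain ⟨X1, hX1⟩ := hX1' q
  have hD0 : 0 < D := by linarith
  obtain ⟨ε', hε'⟩ : ∃ ε' : ℝ, ε' = ε / (8 * D) := ⟨_, rfl⟩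
  have hεpos : 0 < ε' := by rw [hε']; positivity
  have hprimes := Filter.eventually_all.2 (fun j : Fin K => exists_prime_mod q hq0 (a j) (haq j) ε' hεpos)
  obtain ⟨Y0, hY0⟩ := Filter.eventually_atTop.1 hprimes
  have hev : ∀ᶠ X : ℝ in atTop, ∀ F : ℝ, Real.log X ≤ F → F ≤ c * ff X →
    ∀ bad : Finset ℕ, (bad.card : ℝ) ≤ X ^ (9 / 10 : ℝ) →
    ∃ (n : ℕ) (t : Fin K → ℕ), X < n ∧ (n : ℝ) ≤ 3 * X ∧ n ∉ bad ∧
      (∀ j, F / 2 + F / (8 * D) * u j < t j ∧
        (t j : ℝ) ≤ F / 2 + F / (8 * D) * u j + F / (8 * D) * ε) ∧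
      (∀ j, (t j : ℝ) ≤ F) ∧
      (∀ j, n + t j ≡ a j [MOD q]) ∧
      (T : ℝ) * (eta0 / lam) ≤ ∑ g : Fin T, fn lam
        (((Gr K T k).filter (fun j : Fin K => (j : ℕ) / k = g)).filter (fun j => (n + t j).Prime)).card ∧
      ∀ s : ℕ, (s : ℝ) ≤ F → (n + s).Prime → ∃ j, s = t j := by
    filter_upwards [eventually_ge_atTop X1, Real.tendsto_log_atTop.eventually_ge_atTop (4 * |Y0| + 4)]
      with X hXX1 hlX
    intro F hlF hFc bad hbad
    have hF : 4 * |Y0| + 4 ≤ F := hlX.trans hlF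
    have hY0nn := abs_nonneg Y0
    have hFpos : 0 < F := by linarith
    obtain ⟨s0, hs0⟩ : ∃ s0 : ℝ, s0 = F / (8 * D) := ⟨_, rfl⟩
    rw [← hs0]
    have hs0pos : 0 < s0 := by rw [hs0]; positivity
    have hs0D : s0 * D = F / 8 := by rw [hs0]; field_simp
    have hs0F : s0 ≤ F / 8 := by
      have : s0 * 1 ≤ s0 * D := mul_le_mul_of_nonneg_left hD hs0pos.le
      linarith
    have hεs : ε' * F = s0 * ε := by rw [hε', hs0]; field_simp
    obtain ⟨y, hy⟩ : ∃ y : Fin K → ℝ, y = fun j : Fin K => F / 2 + s0 * u j := ⟨_, rfl⟩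
    have hyj : ∀ j, y j = F / 2 + s0 * u j := fun j => by rw [hy]
    have hsu : ∀ j, |s0 * u j| ≤ F / 8 := by
      intro j
      rw [abs_mul, abs_of_pos hs0pos]
      exact (mul_le_mul_of_nonneg_left (huD j) hs0pos.le).trans (le_of_eq hs0D)
    have hylow : ∀ j, F / 4 ≤ y j := by
      intro j
      have h1 := abs_le.1 (hsu j)
      rw [hyj]
      linarith
    have hyup : ∀ j, y j ≤ F * (5 / 8) := by
      intro j
      have h1 := abs_le.1 (hsu j)
      rw [hyj]
      linarith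
    have hex : ∀ j, ∃ p : ℕ, p.Prime ∧ p ≡ a j [MOD q] ∧ y j < p ∧ (p : ℝ) ≤ y j + s0 * ε := by
      intro j
      have h1 := hylow j
      obtain ⟨p, hp, hpa, hp1, hp2⟩ := hY0 (y j) (by
        have := le_abs_self Y0
        linarith) j
      refine ⟨p, hp, hpa, hp1, hp2.trans ?_⟩
      have h3 := hyup j
      have h2 : ε' * y j ≤ ε' * F := mul_le_mul_of_nonneg_left (by linarith) hεpos.le
      linarith
    choose t htp hta htl htu using hex
    have hgap : ∀ j j', j < j' → (t j : ℝ) < t j' := by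
      intro j j' hjj
      have h1 := htu j
      have h2 := htl j'
      have h3 := husep j j' hjj
      have h4 : s0 * (u j + 1) ≤ s0 * u j' := mul_le_mul_of_nonneg_left h3 hs0pos.le
      have h5 : s0 * ε ≤ s0 * (1 / 2) := mul_le_mul_of_nonneg_left hε2 hs0pos.le
      rw [hyj] at h1 h2
      linarith
    have htinj : Function.Injective t := by
      intro j j' hjj
      by_contra hne
      rcases lt_or_gt_of_ne hne with hlt | hlt
      · have := hgap j j' hlt
        rw [hjj] at this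
        exact lt_irrefl _ this
      · have := hgap j' j hlt
        rw [hjj] at this
        exact lt_irrefl _ this
    have htF : ∀ j, (t j : ℝ) ≤ F := by
      intro j
      have h1 := htu j
      have h2 := hyup j
      have h5 : s0 * ε ≤ s0 * (1 / 2) := mul_le_mul_of_nonneg_left hε2 hs0pos.le
      linarith
    have htyy : ∀ j, yy X < t j := by
      intro j
      have h0 : 0 ≤ Real.log X := by linarith
      have h1 : (yy X : ℝ) ≤ Real.log X / 1000 := Nat.floor_le (by positivity)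
      have h4 := hylow j
      have h5 := htl j
      have h6 : (yy X : ℝ) < t j := by linarith
      exact_mod_cast h6
    obtain ⟨n, hn1, hn2, hnb, hn3, hn4, hn5⟩ := hX1 X hXX1 t htinj
      (fun j => ⟨htp j, htyy j, (htF j).trans hFc⟩) bad hbad
    have hqn : q ∣ n := dvd_of_primes q n hqsf fun p hp hpq => hn5 p hp (Nat.le_of_dvd hq0 hpq)
    refine ⟨n, t, hn1, hn2, hnb, ?_, htF, ?_, hn3, ?_⟩
    · intro j
      have h1 := htl j
      have h2 := htu j
      rw [hyj] at h1 h2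
      exact ⟨h1, h2⟩
    · intro j
      have h1 : n ≡ 0 [MOD q] := (Nat.modEq_zero_iff_dvd).2 hqn
      have h2 := h1.add (hta j)
      rwa [zero_add] at h2
    · intro s hs hp
      exact hn4 s (hs.trans hFc) hp
  exact Filter.eventually_atTop.1 hev

end Pool.Agent.T6.H83.RO
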